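import Mathlib
import Pool.Agent.Lib.MP_c44407_an.Defs10
import Pool.Agent.Lib.MP_c44407_an.FinU10
import Pool.Agent.Lib.MP_c44407_an.Clo10
import Pool.Agent.Lib.MP_c44407_an.Ano10
import Pool.Agent.Lib.MP_c44407_an.LIP5
import Pool.Agent.Lib.MP_c44407_an.CLOSE9
import Pool.Agent.Lib.MP_c44407_an.VOL82
import Pool.Agent.Lib.MP_c44407_an.UNI1_76
import Pool.Agent.Lib.MP_c44407_an.UNI53

set_option autoImplicit false

namespace Pool.Agent.Results.MP_c44407_an.AreaContraction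

open Filter Pool.Agent.Lib.Plu

/-- Let the `C^1` diffeomorphism `f` of the torus be `C^1`-robustly pluripotent for `L`. Then
the area does not grow exponentially along the orbits in `L`, it is contracted uniformly
exponentially along the periodic orbits in `L` and, if `L` has the closing property, along all
orbits in `L`; in that case `L` is not the whole torus. -/
theorem result (f : TorusDiffeo) (L : Set E) (hf : RobustlyPluripotent f L) :
    (∀ x ∈ L, ∀ a > 0, ∀ᶠ n : ℕ in atTop, Real.log |(fderiv ℝ (f.map^[n]) x).det| ≤ a * n) ∧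
    (∃ c : ℝ, 0 < c ∧ c < 1 ∧ ∀ p ∈ L, ∀ k : ℕ, 1 ≤ k → (∃ m, f.map^[k] p = p + zv m) →
      |(fderiv ℝ (f.map^[k]) p).det| ≤ c ^ k) ∧
    (Closing f L → (∃ C c : ℝ, 0 < c ∧ c < 1 ∧ ∀ x ∈ L, ∀ n : ℕ,
      |(fderiv ℝ (f.map^[n]) x).det| ≤ C * c ^ n) ∧ ∃ y : E, ∀ m, y + zv m ∉ L) := by
  obtain ⟨h1, c, hc0, hc1, h2⟩ := finalU lip5 stClose9 uni1_76 U53.uni53 V82.rowVOL82 f L hf
  refine ⟨h1, ⟨c, hc0, hc1, h2⟩, fun hL => ?_⟩
  obtain ⟨C, c', hc0', hc1', h3⟩ := clo stClose9 f L c hc0 hc1 h2 hL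
  refine ⟨⟨C, c', hc0', hc1', h3⟩, ?_⟩
  by_contra hno
  push Not at hno
  refine ano10 f C c' hc0' hc1' (fun x n => ?_)
  obtain ⟨m, hm⟩ := hno x
  have h4 := h3 _ hm n
  obtain ⟨m', hm'⟩ := f.iter_add n m
  have h5 : fderiv ℝ (fun y => f.map^[n] (y + zv m)) x = fderiv ℝ (f.map^[n]) (x + zv m) :=
    fderiv_comp_add_right (zv m)
  have h6 : (fun y => f.map^[n] (y + zv m)) = fun y => f.map^[n] y + zv m' := by
    funext y; exact hm' y
  have h7 : fderiv ℝ (f.map^[n]) (x + zv m) = fderiv ℝ (f.map^[n]) x := by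
    rw [← h5, h6]
    exact fderiv_add_const (zv m')
  rwa [h7] at h4

end Pool.Agent.Results.MP_c44407_an.AreaContraction
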