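import Mathlib
import Pool.Agent.Lib.MP_c44407_an.Defs10
import Pool.Agent.Lib.MP_c44407_an.Var10
import Pool.Agent.Lib.MP_c44407_an.Fil10
import Pool.Agent.Lib.MP_c44407_an.Blk10
import Pool.Agent.Lib.MP_c44407_an.ConeP40
import Pool.Agent.Lib.MP_c44407_an.W1_10
import Pool.Agent.Lib.MP_c44407_an.W2_10
import Pool.Agent.Lib.MP_c44407_an.V4_5
import Pool.Agent.Lib.MP_c44407_an.P3_5
import Pool.Agent.Lib.MP_c44407_an.WF45
import Pool.Agent.Lib.MP_c44407_an.WS40

set_option autoImplicit false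

namespace Pool.Agent.Results.MP_c44407_an.FiltrationBlock

open Pool.Agent.Lib.Plu Pool.Agent.Lib.Plu.Var Pool.Agent.Lib.Plu.Blk Pool.Agent.Lib.Plu.Fil

/-- Let `A` be open and `B` closed in the torus, both trapping for `f`, and let `A \ B` carry an
expanding cone field. Then `f` is not strongly pluripotent for any `L` that contains a point whose
orbit stays in `A \ B`, away from the boundary, and not pluripotent for any `L` that contains a
periodic point in `A \ B`. -/
theorem result (f : TorusDiffeo) (A B W : Set E) (a b : E → E → ℝ) (hA : IsOpen A)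
    (hB : IsClosed B) (hTA : Trapping f A) (hTB : Trapping f B)
    (hE : ConeField f (A \ B) W a b) (L : Set E) :
    ((∃ x ∈ L, ∃ σ > 0, ∀ i : ℕ, ∀ z, Near σ z (f.map^[i] x) → z ∈ A \ B) →
      ¬ StronglyPluripotent f L) ∧
    ((∃ p ∈ L, p ∈ A \ B ∧ ∃ k : ℕ, 1 ≤ k ∧ ∃ m, f.map^[k] p = p + zv m) →
      ¬ Pluripotent f L) := by
  obtain ⟨a', b', h⟩ := fieldOver hE
  exact ⟨fun hx => ws40 w1_10 w2_10 V4_5.v4_5 f A B W a' b' L hA hB hTA hTB h hx,
    fun hp => wf45 w1_10 w2_10 V4_5.v4_5 P3_5.p3_5 f A B W a' b' L hA hB hTA hTB h hp⟩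

end Pool.Agent.Results.MP_c44407_an.FiltrationBlock
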